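import Mathlib
import Pool.Agent.Lib.Helper17.BFE.Reg

/-!
# The fractional Berge–Füredi inequality: adding the two-vertex edges, and regular hypergraphs

For a linear hypergraph `H` let `H'` be the set of its edges with at least three vertices.

* `χ'_f(H) ≤ max (χ'_f(H'), D(H), max (deg_H a + deg_{H'} b))`, the last maximum being over the
  ordered pairs `(a, b)` such that `{a, b}` is an edge of `H`;
* `χ'_f(H) ≤ D(H)` if the edges of `H'` are pairwise disjoint;
* `χ'_f(H) ≤ D(H)` if for every `i` all (non-isolated) vertices lie in the same number of edges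
  of size `i`, in particular if `H` is vertex-transitive.
-/

namespace Pool.Agent.Results.MP_614da3_co.FractionalRegular

open Finset

variable {V : Type*} [DecidableEq V]

/-- A linear hypergraph (given by its finite set of edges): every edge has at least two
vertices and any two distinct edges share at most one vertex. -/
def IsLinearHypergraph (H : Finset (Finset V)) : Prop :=
  (∀ e ∈ H, 2 ≤ e.card) ∧ ∀ e ∈ H, ∀ f ∈ H, e ≠ f → (e ∩ f).card ≤ 1

/-- `N[v]`, the union of the edges containing `v`. -/
def closedNbhd (H : Finset (Finset V)) (v : V) : Finset V :=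
  (H.filter (fun e => v ∈ e)).biUnion id

/-- `D(H) = max_v |N[v]|`. -/
def maxNbhd [Fintype V] (H : Finset (Finset V)) : ℕ :=
  Finset.univ.sup (fun v => (closedNbhd H v).card)

/-- `M` is a matching of `H`: a set of pairwise disjoint edges of `H`. -/
def IsMatching (H M : Finset (Finset V)) : Prop :=
  M ⊆ H ∧ ∀ e ∈ M, ∀ f ∈ M, e ≠ f → Disjoint e f

/-- `y` is a fractional edge-colouring of `H`: a nonnegative weighting of the matchings of `H`
(sets of edges that are not matchings of `H` get weight `0`) in which every edge lies in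
matchings of total weight at least `1`. -/
def IsFracColouring (H : Finset (Finset V)) (y : Finset (Finset V) → ℝ) : Prop :=
  (∀ M, 0 ≤ y M) ∧ (∀ M, ¬ IsMatching H M → y M = 0) ∧
    ∀ e ∈ H, 1 ≤ ∑ M ∈ H.powerset.filter (fun M => e ∈ M), y M

/-- The total weight of a fractional edge-colouring. -/
def totalWeight (H : Finset (Finset V)) (y : Finset (Finset V) → ℝ) : ℝ :=
  ∑ M ∈ H.powerset, y M

/-- The fractional chromatic index: the infimum (it is attained) of the total weights of the
fractional edge-colourings. -/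
noncomputable def fracChromaticIndex (H : Finset (Finset V)) : ℝ :=
  sInf {t : ℝ | ∃ y, IsFracColouring H y ∧ totalWeight H y = t}

/-- The edges with at least three vertices. -/
def largeEdges (H : Finset (Finset V)) : Finset (Finset V) := H.filter (fun e => 3 ≤ e.card)

/-- The number of edges containing `v`. -/
def degree (H : Finset (Finset V)) (v : V) : ℕ := (H.filter (fun e => v ∈ e)).card

/-- The maximum of `deg_H a + deg_{H'} b` over the ordered pairs `(a, b)` with `{a, b}` an edge
of `H`, where `H'` is the set of edges with at least three vertices (`0` if there is no such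
pair). -/
def pairBound [Fintype V] (H : Finset (Finset V)) : ℕ :=
  ((Finset.univ : Finset (V × V)).filter (fun p => p.1 ≠ p.2 ∧ ({p.1, p.2} : Finset V) ∈ H)).sup
    (fun p => degree H p.1 + degree (largeEdges H) p.2)

/-- For every `i`, all the vertices lying in some edge lie in the same number of edges of
size `i`. -/
def IsRegular (H : Finset (Finset V)) : Prop :=
  ∀ v w, (∃ e ∈ H, v ∈ e) → (∃ e ∈ H, w ∈ e) → ∀ i : ℕ,
    (H.filter (fun e => e.card = i ∧ v ∈ e)).card = (H.filter (fun e => e.card = i ∧ w ∈ e)).card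

open Pool.Agent.Helper17.BFE in
lemma bound_of_dual (H : Finset (Finset V)) {D : ℝ} (hD0 : 0 ≤ D)
    (h : Pool.Agent.Helper4.BF.Dual H D) :
    (∃ y, IsFracColouring H y ∧ totalWeight H y ≤ D) ∧ fracChromaticIndex H ≤ D := by
  classical
  obtain ⟨y, hy0, hyM, hycov, hyw⟩ := Pool.Agent.Helper4.BF.exists_colouring hD0 h
  have hy : IsFracColouring H y := by
    refine ⟨hy0, fun M hM => ?_, hycov⟩
    by_contra hne
    exact hM (Pool.Agent.Helper4.BF.mem_matchings.1 (hyM M hne))
  refine ⟨⟨y, hy, hyw⟩, ?_⟩
  have hbdd : BddBelow {t : ℝ | ∃ y, IsFracColouring H y ∧ totalWeight H y = t} := by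
    refine ⟨0, ?_⟩
    rintro t ⟨z, hz, rfl⟩
    exact Finset.sum_nonneg fun M _ => hz.1 M
  have hmem : totalWeight H y ∈ {t : ℝ | ∃ y, IsFracColouring H y ∧ totalWeight H y = t} :=
    ⟨y, hy, rfl⟩
  exact (csInf_le hbdd hmem).trans hyw

/-- Weak duality. -/
lemma weak_duality (H : Finset (Finset V)) (y : Finset (Finset V) → ℝ) (hy : IsFracColouring H y)
    (w : Finset V → ℝ) (hw : ∀ e, 0 ≤ w e)
    (hpack : ∀ M ∈ Pool.Agent.Helper4.BF.matchings H, ∑ e ∈ M, w e ≤ 1) :
    ∑ e ∈ H, w e ≤ totalWeight H y := by
  classical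
  calc ∑ e ∈ H, w e ≤ ∑ e ∈ H, w e * ∑ M ∈ H.powerset.filter (fun M => e ∈ M), y M := by
        refine Finset.sum_le_sum fun e he => ?_
        have := hy.2.2 e he
        nlinarith [hw e]
    _ = ∑ M ∈ H.powerset, y M * ∑ e ∈ M, w e := by
        simp only [Finset.mul_sum]
        rw [Finset.sum_comm' (t' := H.powerset) (s' := fun M => M)]
        · refine Finset.sum_congr rfl fun M _ => Finset.sum_congr rfl fun e _ => ?_
          ring
        · intro e M
          simp only [mem_filter, mem_powerset]
          constructor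
          · rintro ⟨_, hM, heM⟩
            exact ⟨heM, hM⟩
          · rintro ⟨heM, hM⟩
            exact ⟨hM heM, hM, heM⟩
    _ ≤ ∑ M ∈ H.powerset, y M * 1 := by
        refine Finset.sum_le_sum fun M _ => ?_
        by_cases hM : IsMatching H M
        · exact mul_le_mul_of_nonneg_left
            (hpack M (Pool.Agent.Helper4.BF.mem_matchings.2 ⟨hM.1, hM.2⟩)) (hy.1 M)
        · rw [hy.2.1 M hM]
          simp
    _ = totalWeight H y := by simp [totalWeight]

/-- The fractional chromatic index satisfies the dual bound. -/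
lemma dual_index (H : Finset (Finset V)) :
    0 ≤ fracChromaticIndex H ∧ Pool.Agent.Helper4.BF.Dual H (fracChromaticIndex H) := by
  classical
  rcases H.eq_empty_or_nonempty with rfl | hne
  · refine ⟨Real.sInf_nonneg ?_, Pool.Agent.Helper17.BFE.dual_empty _⟩
    rintro t ⟨z, hz, rfl⟩
    exact Finset.sum_nonneg fun M _ => hz.1 M
  obtain ⟨k, w, y, hopt⟩ := Pool.Agent.Helper4.BF.exists_optPair H hne
  have hk0 : 0 ≤ k := by rw [← hopt.wk]; exact Finset.sum_nonneg fun e _ => hopt.w0 e
  have hex := (bound_of_dual H hk0 (hopt.dual le_rfl)).1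
  have hle : k ≤ fracChromaticIndex H := by
    refine le_csInf ?_ ?_
    · obtain ⟨y, hy, _⟩ := hex
      exact ⟨_, y, hy, rfl⟩
    · rintro t ⟨z, hz, rfl⟩
      rw [← hopt.wk]
      exact weak_duality H z hz w hopt.w0 hopt.pack
  exact ⟨hk0.trans hle, Pool.Agent.Helper17.BFE.dual_mono (hopt.dual le_rfl) hle⟩

theorem result [Fintype V] (H : Finset (Finset V)) (hH : IsLinearHypergraph H) :
    (fracChromaticIndex H ≤
      max (fracChromaticIndex (largeEdges H)) (max (maxNbhd H : ℝ) (pairBound H : ℝ))) ∧
    ((∀ e ∈ largeEdges H, ∀ f ∈ largeEdges H, e ≠ f → Disjoint e f) →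
      (∃ y, IsFracColouring H y ∧ totalWeight H y ≤ (maxNbhd H : ℝ)) ∧
        fracChromaticIndex H ≤ (maxNbhd H : ℝ)) ∧
    (IsRegular H →
      (∃ y, IsFracColouring H y ∧ totalWeight H y ≤ (maxNbhd H : ℝ)) ∧
        fracChromaticIndex H ≤ (maxNbhd H : ℝ)) := by
  classical
  have hD : ∀ v, (Pool.Agent.Helper4.BF.nbhd H v).card ≤ maxNbhd H := fun v =>
    Finset.le_sup (f := fun v => (closedNbhd H v).card) (Finset.mem_univ v)
  have hlin : Pool.Agent.Helper4.BF.IsLinear H := hH.2
  refine ⟨?_, ?_, ?_⟩
  · obtain ⟨hi0, hidual⟩ := dual_index (largeEdges H)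
    set D := max (fracChromaticIndex (largeEdges H)) (max (maxNbhd H : ℝ) (pairBound H : ℝ)) with hDdef
    have h1 : fracChromaticIndex (largeEdges H) ≤ D := le_max_left _ _
    have h2 : (maxNbhd H : ℝ) ≤ D := (le_max_left _ _).trans (le_max_right _ _)
    have h3 : (pairBound H : ℝ) ≤ D := (le_max_right _ _).trans (le_max_right _ _)
    refine (bound_of_dual H (hi0.trans h1) ?_).2
    refine Pool.Agent.Helper17.BFE.Stage.dual ⟨hlin, hH.1, ?_, ?_⟩
      (Pool.Agent.Helper17.BFE.dual_mono hidual h1)
    · intro v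
      have : ((Pool.Agent.Helper4.BF.nbhd H v).card : ℝ) ≤ (maxNbhd H : ℝ) := by
        exact_mod_cast hD v
      exact this.trans h2
    · intro a b hab habH
      have h4 : degree H a + degree (largeEdges H) b ≤ pairBound H :=
        Finset.le_sup (f := fun p : V × V => degree H p.1 + degree (largeEdges H) p.2)
          (mem_filter.2 ⟨Finset.mem_univ (a, b), hab, habH⟩)
      have h5 : ((degree H a + degree (largeEdges H) b : ℕ) : ℝ) ≤ (pairBound H : ℝ) := by
        exact_mod_cast h4
      push_cast at h5
      exact h5.trans h3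
  · intro hdis
    exact bound_of_dual H (Nat.cast_nonneg _) (Pool.Agent.Helper17.BFE.dual_of_disjoint hlin hH.1
      (fun v => by exact_mod_cast hD v) hdis)
  · intro hreg
    exact bound_of_dual H (Nat.cast_nonneg _)
      (Pool.Agent.Helper17.BFE.dual_regular hlin hH.1 _ hD hreg)

end Pool.Agent.Results.MP_614da3_co.FractionalRegular
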