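import Mathlib
import Pool.Agent.Lib.H84S.F1

/-!
# The Berge-Füredi conjecture for linear hypergraphs with vertices of high 2-degree

Let `D = D(H) = max |N[v]|`. A vertex is called high if it lies in more than `(1 - ε) D` edges of size two. For all
`ε, γ > 0` and all `K` there are `D₀` and `η > 0` such that `χ'(H) ≤ D(H)` for every linear hypergraph `H` with
`D(H) ≥ D₀` that has high vertices and has a set `S` of edges of size two, each joining a high vertex to a vertex that is
not high and lies in no edge with more than `K` vertices, such that every high vertex lies in at least `γ D` members of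
`S` and every other vertex in at most `η D` members of `S`. The edge sizes and the number of vertices are arbitrary. High vertices may lie in up to
`D - 1` edges of size two, and may be adjacent to each other arbitrarily. (The linear hypergraphs without high
vertices are the subject of our theorem `FewTwoEdges`, handed in for MP_a75eec_co, the same question.)
-/

namespace Pool.Agent.Results.MP_614da3_co.HighVertices

open Finset

/-- A linear hypergraph (given by its finite set of edges): every edge has at least two
vertices and any two distinct edges share at most one vertex. -/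
def IsLinearHypergraph {V : Type} [DecidableEq V] (H : Finset (Finset V)) : Prop :=
  (∀ e ∈ H, 2 ≤ e.card) ∧ ∀ e ∈ H, ∀ f ∈ H, e ≠ f → (e ∩ f).card ≤ 1

/-- `N[v]`, the union of the edges containing `v`. -/
def closedNbhd {V : Type} [DecidableEq V] (H : Finset (Finset V)) (v : V) : Finset V :=
  (H.filter (fun e => v ∈ e)).biUnion id

/-- `D(H)`, the maximum of `|N[v]|` over all vertices. -/
def maxNbhd {V : Type} [DecidableEq V] [Fintype V] (H : Finset (Finset V)) : ℕ :=
  Finset.univ.sup (fun v => (closedNbhd H v).card)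

/-- the number of edges of size two containing `v` -/
def twoDegree {V : Type} [DecidableEq V] (H : Finset (Finset V)) (v : V) : ℕ :=
  (H.filter (fun e => v ∈ e ∧ e.card = 2)).card

/-- `v` is a high vertex: it lies in more than `(1 - ε) D(H)` edges of size two. -/
def IsHigh {V : Type} [DecidableEq V] [Fintype V] (ε : ℝ) (H : Finset (Finset V)) (v : V) : Prop :=
  (1 - ε) * (maxNbhd H : ℝ) < (twoDegree H v : ℝ)

/-- `H` has a proper edge-colouring with `k` colours: distinct edges with a common vertex get different
colours. -/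
def EdgeColorable {V : Type} [DecidableEq V] (H : Finset (Finset V)) (k : ℕ) : Prop :=
  ∃ c : Finset V → ℕ, (∀ e ∈ H, c e < k) ∧
    ∀ e ∈ H, ∀ f ∈ H, e ≠ f → (e ∩ f).Nonempty → c e ≠ c f

/-- The chromatic index: the least number of colours in a proper edge-colouring. -/
noncomputable def chromaticIndex {V : Type} [DecidableEq V] (H : Finset (Finset V)) : ℕ :=
  sInf {k | EdgeColorable H k}

theorem result :
    ∀ ε γ : ℝ, 0 < ε → 0 < γ → ∀ K : ℕ, ∃ (D₀ : ℕ) (η : ℝ), 0 < η ∧
      ∀ (V : Type) [DecidableEq V] [Fintype V] (H S : Finset (Finset V)),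
        IsLinearHypergraph H → D₀ ≤ maxNbhd H → (∃ v, IsHigh ε H v) → S ⊆ H →
        (∀ e ∈ S, ∃ x y, e = {x, y} ∧ x ≠ y ∧ IsHigh ε H x ∧ ¬ IsHigh ε H y ∧
          ∀ f ∈ H, y ∈ f → f.card ≤ K) →
        (∀ v, IsHigh ε H v → γ * maxNbhd H ≤ ((S.filter (fun e => v ∈ e)).card : ℝ)) →
        (∀ v, ¬ IsHigh ε H v → ((S.filter (fun e => v ∈ e)).card : ℝ) ≤ η * maxNbhd H) →
        EdgeColorable H (maxNbhd H) ∧ chromaticIndex H ≤ maxNbhd H := by
  classical
  intro ε γ hε hγ K
  obtain ⟨D0, η, hη, h⟩ := Pool.Agent.Lib.H84S.f1_final ε γ hε hγ K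
  refine ⟨D0, η, hη, fun V _ _ H S hH hD _ hSH hS hhigh hlow => ?_⟩
  have htwo : ∀ v, Pool.Agent.Lib.H84S.two H v = twoDegree H v := fun v => by
    unfold Pool.Agent.Lib.H84S.two twoDegree
    congr
  have hN : ∀ v, (Pool.Agent.Lib.BFE.nbhd H v).card ≤ maxNbhd H := fun v => by
    have h1 := Finset.le_sup (f := fun v => (closedNbhd H v).card) (mem_univ v)
    have h2 : Pool.Agent.Lib.BFE.nbhd H v = closedNbhd H v := by
      unfold Pool.Agent.Lib.BFE.nbhd closedNbhd
      ext x
      simp only [mem_biUnion, mem_filter]
    rw [h2]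
    exact h1
  obtain ⟨c, hc⟩ := h V H (maxNbhd H) hD hH.1 hH.2 hN S hSH
    (fun e he => by
      obtain ⟨x, y, h1, h2, h3, h4, h5⟩ := hS e he
      refine ⟨x, y, h1, h2, ?_, ?_, h5⟩
      · rw [htwo]
        exact h3
      · rw [htwo]
        exact not_lt.1 h4)
    (fun v hv => by
      rw [htwo] at hv
      have h1 := hhigh v hv
      refine h1.trans (le_of_eq ?_)
      congr)
    (fun v hv => by
      rw [htwo] at hv
      have h1 := hlow v (not_lt.2 hv)
      refine le_trans (le_of_eq ?_) h1
      congr)
  have hcol : EdgeColorable H (maxNbhd H) := by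
    refine ⟨fun e => (c e : ℕ), fun e _ => (c e).isLt, fun e he f hf hef hne heq => ?_⟩
    refine hc e he f hf hef ?_ (Fin.ext heq)
    rw [Finset.not_disjoint_iff]
    obtain ⟨x, hx⟩ := hne
    exact ⟨x, (mem_inter.1 hx).1, (mem_inter.1 hx).2⟩
  exact ⟨hcol, Nat.sInf_le hcol⟩

end Pool.Agent.Results.MP_614da3_co.HighVertices
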