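import Mathlib
import Pool.Agent.Lib.H87B.C4

/-!
# The Berge–Füredi conjecture for `D(H) ≤ 5`

Let `H` be a linear hypergraph and `D(H) = max_v |N[v]|`. If `D(H) ≤ 5`, the edges of `H` can be
coloured with `D(H)` colours.
-/

namespace Pool.Agent.Results.MP_614da3_co.SmallNbhd

open Finset

variable {V : Type*} [DecidableEq V]

/-- A linear hypergraph (given by its finite set of edges): every edge has at least two
vertices and any two distinct edges share at most one vertex. -/
def IsLinearHypergraph (H : Finset (Finset V)) : Prop :=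
  (∀ e ∈ H, 2 ≤ e.card) ∧ ∀ e ∈ H, ∀ f ∈ H, e ≠ f → (e ∩ f).card ≤ 1

/-- `N[v]`, the union of the edges containing `v`. -/
def closedNbhd (H : Finset (Finset V)) (v : V) : Finset V :=
  (H.filter (fun e => v ∈ e)).biUnion id

/-- `D(H) = max_v |N[v]|`. -/
def maxNbhd [Fintype V] (H : Finset (Finset V)) : ℕ :=
  Finset.univ.sup (fun v => (closedNbhd H v).card)

/-- The edges of `H` can be coloured with `t` colours so that distinct edges that meet have
different colours: the chromatic index of `H` is at most `t`. -/
def IsColourable (H : Finset (Finset V)) (t : ℕ) : Prop :=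
  ∃ c : Finset V → ℕ, (∀ A ∈ H, c A < t) ∧
    ∀ A ∈ H, ∀ B ∈ H, A ≠ B → (A ∩ B).Nonempty → c A ≠ c B

lemma nbd_le [Fintype V] (H : Finset (Finset V)) (v : V) :
    (H87B.nbd H v).card ≤ maxNbhd H :=
  Finset.le_sup (f := fun v => (closedNbhd H v).card) (Finset.mem_univ v)

/-- Every linear hypergraph `H` with `D(H) ≤ 5` has chromatic index at most `D(H)`. -/
theorem result [Fintype V] (H : Finset (Finset V)) (hH : IsLinearHypergraph H)
    (h5 : maxNbhd H ≤ 5) : IsColourable H (maxNbhd H) :=
  H87B.theoremB (maxNbhd H) h5 H.card H rfl hH (nbd_le H)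

end Pool.Agent.Results.MP_614da3_co.SmallNbhd
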