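import Mathlib
import Pool.Agent.Lib.H87B.C4

/-!
# The Berge–Füredi conjecture when the large edges form two matchings

Let `H` be a linear hypergraph and `D(H) = max_v |N[v]|`. The conjecture says that the edges of `H`
can be coloured with `D(H)` colours. A large edge is an edge with at least three vertices. The
conjecture is proved if the large edges are covered by two sets of pairwise disjoint edges, and for
every vertex `x` and every large edge `A` there are fewer than `|A|` vertices `w` such that
`{x, w}` is an edge and `w` lies in at least two large edges.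
-/

namespace Pool.Agent.Results.MP_614da3_co.TwoMatchings

open Finset

variable {V : Type*} [DecidableEq V]

/-- A linear hypergraph (given by its finite set of edges): every edge has at least two
vertices and any two distinct edges share at most one vertex. -/
def IsLinearHypergraph (H : Finset (Finset V)) : Prop :=
  (∀ e ∈ H, 2 ≤ e.card) ∧ ∀ e ∈ H, ∀ f ∈ H, e ≠ f → (e ∩ f).card ≤ 1

/-- `N[v]`, the union of the edges containing `v`. -/
def closedNbhd (H : Finset (Finset V)) (v : V) : Finset V :=
  (H.filter (fun e => v ∈ e)).biUnion id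

/-- `D(H) = max_v |N[v]|`. -/
def maxNbhd [Fintype V] (H : Finset (Finset V)) : ℕ :=
  Finset.univ.sup (fun v => (closedNbhd H v).card)

/-- The edges of `H` can be coloured with `t` colours so that distinct edges that meet have
different colours: the chromatic index of `H` is at most `t`. -/
def IsColourable (H : Finset (Finset V)) (t : ℕ) : Prop :=
  ∃ c : Finset V → ℕ, (∀ A ∈ H, c A < t) ∧
    ∀ A ∈ H, ∀ B ∈ H, A ≠ B → (A ∩ B).Nonempty → c A ≠ c B

/-- The edges with at least three vertices. -/
def largeEdges (H : Finset (Finset V)) : Finset (Finset V) := H.filter (fun e => 3 ≤ e.card)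

/-- The vertices `w` such that `{x, w}` is an edge of `H` (with two vertices) and `w` lies in at
least two large edges. -/
def doubleNbrs [Fintype V] (H : Finset (Finset V)) (x : V) : Finset V :=
  Finset.univ.filter (fun w => x ≠ w ∧ ({x, w} : Finset V) ∈ H ∧
    2 ≤ ((largeEdges H).filter (fun B => w ∈ B)).card)

/-- The members of `C` are pairwise disjoint. -/
def IsMatching (C : Finset (Finset V)) : Prop := ∀ A ∈ C, ∀ B ∈ C, A ≠ B → Disjoint A B

lemma nbd_le [Fintype V] (H : Finset (Finset V)) (v : V) :
    (H87B.nbd H v).card ≤ maxNbhd H :=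
  Finset.le_sup (f := fun v => (closedNbhd H v).card) (Finset.mem_univ v)

open Classical in
lemma main [Fintype V] {H : Finset (Finset V)} (hH : IsLinearHypergraph H)
    (C1 C2 : Finset (Finset V)) (hC : largeEdges H ⊆ C1 ∪ C2) (h1 : IsMatching C1)
    (h2 : IsMatching C2) (hW : ∀ x, ∀ A ∈ largeEdges H, (doubleNbrs H x).card < A.card) :
    IsColourable H (maxNbhd H) := by
  refine H87B.theoremA (H := H) hH (maxNbhd H) (nbd_le H) C1 C2 ?_ h1 h2 ?_
  · intro A hA hA3
    exact hC (Finset.mem_filter.mpr ⟨hA, hA3⟩)
  · intro x A hA hA3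
    refine lt_of_le_of_lt (Finset.card_le_card ?_) (hW x A (Finset.mem_filter.mpr ⟨hA, hA3⟩))
    intro w hw
    obtain ⟨_, hadj, B, hB, B', hB', hne, hB3, hB'3, hwB, hwB'⟩ := Finset.mem_filter.mp hw
    refine Finset.mem_filter.mpr ⟨Finset.mem_univ _, hadj.1, hadj.2, ?_⟩
    refine Finset.one_lt_card.mpr ⟨B, ?_, B', ?_, hne⟩
    · exact Finset.mem_filter.mpr ⟨Finset.mem_filter.mpr ⟨hB, hB3⟩, hwB⟩
    · exact Finset.mem_filter.mpr ⟨Finset.mem_filter.mpr ⟨hB', hB'3⟩, hwB'⟩

/-- The special case of pairwise disjoint large edges (not part of `result`). -/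
lemma disjoint_case [Fintype V] (H : Finset (Finset V)) (hH : IsLinearHypergraph H)
    (hm : IsMatching (largeEdges H)) : IsColourable H (maxNbhd H) := by
  refine main hH (largeEdges H) ∅ (Finset.subset_union_left) hm
    (fun A hA => absurd hA (Finset.notMem_empty _)) ?_
  intro x A hA
  have h0 : doubleNbrs H x = ∅ := by
    refine Finset.filter_eq_empty_iff.mpr ?_
    rintro w _ ⟨_, _, h2⟩
    obtain ⟨B, hB, B', hB', hne⟩ := Finset.one_lt_card.mp h2
    obtain ⟨hB1, hwB⟩ := Finset.mem_filter.mp hB
    obtain ⟨hB'1, hwB'⟩ := Finset.mem_filter.mp hB'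
    exact (Finset.disjoint_left.mp (hm B hB1 B' hB'1 hne)) hwB hwB'
  rw [h0, Finset.card_empty]
  have := (Finset.mem_filter.mp hA).2
  omega

/-- Let `H` be a linear hypergraph whose large edges are covered by two sets `C1`, `C2` of pairwise
disjoint edges, and suppose that for every vertex `x` and every large edge `A` there are fewer than
`|A|` vertices `w` lying in at least two large edges such that `{x, w}` is an edge. Then the edges of
`H` can be coloured with `D(H)` colours. -/
theorem result [Fintype V] (H : Finset (Finset V)) (hH : IsLinearHypergraph H)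
    (C1 C2 : Finset (Finset V)) (hC : largeEdges H ⊆ C1 ∪ C2) (h1 : IsMatching C1)
    (h2 : IsMatching C2) (hW : ∀ x, ∀ A ∈ largeEdges H, (doubleNbrs H x).card < A.card) :
    IsColourable H (maxNbhd H) :=
  main hH C1 C2 hC h1 h2 hW

end Pool.Agent.Results.MP_614da3_co.TwoMatchings
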